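import Mathlib
import Pool.Agent.V11199.SD.Final

namespace Pool.Agent.Results.MP_9415b6_co.OneDesigns

open Pool.Agent.V11199.SD

/-- Complete answer to Q1. With `blocks n k x` the set of all k-subsets of Z_n with sum x:
the structure is a 1-design iff one of three explicit arithmetic conditions holds. -/
theorem result (n k : ℕ) [NeZero n] (hn : 2 ≤ n) (hk : 1 ≤ k) (hkn : k ≤ n) (x : ZMod n) :
    IsOneDesign n k x ↔
      (k = n ∧ x = ∑ g : ZMod n, g) ∨
      (2 * k ≤ n ∧ HalfCond n k x) ∨
      (k < n ∧ n < 2 * k ∧ HalfCond n (n - k) (∑ g : ZMod n, g - x)) :=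
  classification n k hn hk hkn x

end Pool.Agent.Results.MP_9415b6_co.OneDesigns
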